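import Pool.Agent.L7h66.UA.Stm

set_option autoImplicit false

/-!
# Project UA, part CNA: models with the same multiplicities are isomorphic
-/

namespace Pool.Agent.L7h97.UA

open Set Function
open Pool.Agent.L7h66.UA

/-- countable sets with the same `encard` are equinumerous -/
theorem equiv_of_encard {α β : Type} {s : Set α} {t : Set β} (hs : s.Countable) (ht : t.Countable)
    (h : s.encard = t.encard) : Nonempty (s ≃ t) := by
  rw [← Cardinal.eq]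
  apply Cardinal.toENat_injOn
  · exact Cardinal.mk_le_aleph0_iff.2 hs.to_subtype
  · exact Cardinal.mk_le_aleph0_iff.2 ht.to_subtype
  · exact h

/-- the components of a model on `ℕ` -/
abbrev KC (T : Tower) (ψ : ℕ → (ℕ ≃ ℕ)) : Type := {K : Set ℕ // ∃ w, w ∉ Din T ψ ∧ K = Cp T ψ w}

variable {T : Tower} {ψ ψ' : ℕ → (ℕ ≃ ℕ)}

/-- a point of a component -/
noncomputable def rp (K : KC T ψ) : ℕ := K.2.choose

theorem rp_not (K : KC T ψ) : rp K ∉ Din T ψ := K.2.choose_spec.1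

theorem rp_eq (K : KC T ψ) : K.1 = Cp T ψ (rp K) := K.2.choose_spec.2

/-- the pointed model of a component -/
noncomputable def pmk (hψ : Coh T ψ) (K : KC T ψ) : PM T := ⟨ψ, hψ, rp K, rp_not K⟩

/-- isomorphism of the components of pointed models -/
def ste (T : Tower) (h : S_CEQ) : Setoid (PM T) where
  r p q := CE T p.ψ p.w q.ψ q.w
  iseqv := ⟨fun p => ⟨p.w, cp_self p.hw, Ty.refl _ _⟩,
    fun {p q} hpq => (h T _ _ _ p.ψ q.ψ p.ψ p.coh q.coh p.coh p.w q.w p.w p.hw q.hw hpq).1,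
    fun {p q r} hpq hqr =>
      (h T _ _ _ p.ψ q.ψ r.ψ p.coh q.coh r.coh p.w q.w r.w p.hw q.hw hpq).2 r.hw hqr⟩

/-- the class of a component -/
noncomputable def cl (h : S_CEQ) (hψ : Coh T ψ) (K : KC T ψ) : Quotient (ste T h) :=
  Quotient.mk _ (pmk hψ K)

theorem cl_iff (h : S_CEQ) (hψ : Coh T ψ) (K : KC T ψ) (c : Quotient (ste T h)) :
    cl h hψ K = c ↔ CE T c.out.ψ c.out.w ψ (rp K) := by
  constructor
  · intro hc
    have h1 : Quotient.mk (ste T h) c.out = Quotient.mk _ (pmk hψ K) := by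
      rw [Quotient.out_eq]
      exact hc.symm
    exact Quotient.exact h1
  · intro hc
    have h1 : Quotient.mk (ste T h) c.out = Quotient.mk _ (pmk hψ K) := Quotient.sound hc
    rw [Quotient.out_eq] at h1
    exact h1.symm

/-- the components of a class -/
noncomputable def fibE (h : S_CEQ) (hψ : Coh T ψ) (c : Quotient (ste T h)) :
    {K : KC T ψ // cl h hψ K = c} ≃
      ({K : Set ℕ | ∃ w, w ∉ Din T ψ ∧ K = Cp T ψ w ∧ CE T c.out.ψ c.out.w ψ w} : Set (Set ℕ)) where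
  toFun K := ⟨K.1.1, rp K.1, rp_not K.1, rp_eq K.1, (cl_iff h hψ K.1 c).1 K.2⟩
  invFun K := ⟨⟨K.1, by
    obtain ⟨w, hw, h1, _⟩ := K.2
    exact ⟨w, hw, h1⟩⟩, by
    obtain ⟨w, hw, h1, u, hu, h2⟩ := K.2
    rw [cl_iff]
    refine ⟨u, ?_, h2⟩
    rw [← rp_eq]
    change u ∈ K.1
    rw [h1]
    exact hu⟩
  left_inv K := rfl
  right_inv K := rfl

theorem cnt_aux (q : PM T) :
    {K : Set ℕ | ∃ w, w ∉ Din T ψ ∧ K = Cp T ψ w ∧ CE T q.ψ q.w ψ w}.Countable := by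
  refine (countable_range fun w : ℕ => Cp T ψ w).mono ?_
  rintro K ⟨w, -, rfl, -⟩
  exact ⟨w, rfl⟩

/-- the bijection of the components -/
theorem exists_theta (h : S_CEQ) (hψ : Coh T ψ) (hψ' : Coh T ψ')
    (hn : ∀ q : PM T, {K : Set ℕ | ∃ w, w ∉ Din T ψ ∧ K = Cp T ψ w ∧ CE T q.ψ q.w ψ w}.encard =
      {K : Set ℕ | ∃ w, w ∉ Din T ψ' ∧ K = Cp T ψ' w ∧ CE T q.ψ q.w ψ' w}.encard) :
    ∃ Θ : KC T ψ ≃ KC T ψ', ∀ K, CE T ψ (rp K) ψ' (rp (Θ K)) := by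
  have h1 : ∀ c : Quotient (ste T h), Nonempty
      ({K : KC T ψ // cl h hψ K = c} ≃ {K : KC T ψ' // cl h hψ' K = c}) := by
    intro c
    obtain ⟨e⟩ := equiv_of_encard (cnt_aux c.out) (cnt_aux c.out) (hn c.out)
    exact ⟨(fibE h hψ c).trans (e.trans (fibE h hψ' c).symm)⟩
  let e := fun c => (h1 c).some
  let Θ : KC T ψ ≃ KC T ψ' := (Equiv.sigmaFiberEquiv (cl h hψ)).symm.trans
    ((Equiv.sigmaCongrRight e).trans (Equiv.sigmaFiberEquiv (cl h hψ')))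
  refine ⟨Θ, fun K => ?_⟩
  have h2 : cl h hψ' (Θ K) = cl h hψ K := (e (cl h hψ K) ⟨K, rfl⟩).2
  exact Quotient.exact h2.symm

/-- the algebraic points -/
theorem exists_alg (hψ : Coh T ψ) (hψ' : Coh T ψ') (w : ℕ) (hw : w ∈ Din T ψ) :
    ∃ y, ∀ n, ψ n w ∈ T.D n → ψ' n y = ψ n w := by
  obtain ⟨m, hm⟩ := hw
  refine ⟨(ψ' m).symm (ψ m w), fun n hn => ?_⟩
  have h0 : ψ' m ((ψ' m).symm (ψ m w)) = ψ m w := (ψ' m).apply_symm_apply _
  rcases le_total n m with h | h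
  · have h1 : ψ m w = ψ n w := hψ.din_eq h hn
    obtain ⟨s, hs, h2⟩ := hψ'.le h
    rw [h2, h0, h1]
    exact T.S_D n s hs _ hn
  · have h1 : ψ n w = ψ m w := hψ.din_eq h hm
    rw [h1]
    have h2 := hψ'.din_eq h (w := (ψ' m).symm (ψ m w)) (by rw [h0]; exact hm)
    rw [h2, h0]

theorem s_CNA (hT : S_TYP) (hC : S_CEQ) (hG : S_GLU) : S_CNA := by
  classical
  intro T ψ ψ' hψ hψ' hn
  obtain ⟨Θ, hΘ⟩ := exists_theta hC hψ hψ' hn
  -- the maps on the components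
  have h1 : ∀ K : KC T ψ, ∃ f : ℕ → ℕ, BijOn f K.1 (Θ K).1 ∧
      ∀ n, ∀ u ∈ K.1, ∃ s ∈ T.S n, ∀ v, ψ n v ∈ T.B n (ψ n u) → ψ' n (f v) = s (ψ n v) := by
    intro K
    obtain ⟨u, hu, h2⟩ := hΘ K
    obtain ⟨f, -, h3, h4⟩ := hT T ℕ ℕ ψ ψ' hψ hψ' (rp K) u (rp_not K) h2
    rw [hψ'.cp_eq (rp_not (Θ K)) hu, ← rp_eq, ← rp_eq] at h3
    rw [← rp_eq] at h4
    exact ⟨f, h3, h4⟩
  choose F hF1 hF2 using h1
  have h2 := exists_alg hψ hψ'
  choose fa hfa using h2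
  -- the component of a point
  let kc : ∀ w : ℕ, w ∉ Din T ψ → KC T ψ := fun w hw => ⟨Cp T ψ w, w, hw, rfl⟩
  have hkc : ∀ (K : KC T ψ) (w : ℕ), w ∈ K.1 → ∃ hw : w ∉ Din T ψ, kc w hw = K := by
    intro K w hw
    rw [rp_eq K] at hw
    have h3 := hψ.cp_not (rp_not K) hw
    refine ⟨h3, Subtype.ext ?_⟩
    change Cp T ψ w = K.1
    rw [hψ.cp_eq (rp_not K) hw, ← rp_eq]
  have hkc' : ∀ (K : KC T ψ') (w : ℕ), w ∈ K.1 → w ∉ Din T ψ' ∧ Cp T ψ' w = K.1 := by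
    intro K w hw
    rw [rp_eq K] at hw ⊢
    exact ⟨hψ'.cp_not (rp_not K) hw, hψ'.cp_eq (rp_not K) hw⟩
  let f : ℕ → ℕ := fun w => if hw : w ∈ Din T ψ then fa w hw else F (kc w hw) w
  have hf1 : ∀ w (hw : w ∈ Din T ψ), f w = fa w hw := fun w hw => dif_pos hw
  have hf2 : ∀ w (hw : w ∉ Din T ψ), f w = F (kc w hw) w := fun w hw => dif_neg hw
  have hf3 : ∀ (K : KC T ψ) (w : ℕ), w ∈ K.1 → f w = F K w := by
    intro K w hw
    obtain ⟨h3, h4⟩ := hkc K w hw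
    rw [hf2 w h3, h4]
  have hfD : ∀ n w, ψ n w ∈ T.D n → ψ' n (f w) = ψ n w := by
    intro n w hw
    rw [hf1 w ⟨n, hw⟩]
    exact hfa w ⟨n, hw⟩ n hw
  have hfin : ∀ w, w ∈ Din T ψ → f w ∈ Din T ψ' := by
    rintro w ⟨n, hn⟩
    refine ⟨n, ?_⟩
    rw [hfD n w hn]
    exact hn
  have hfout : ∀ w (hw : w ∉ Din T ψ), f w ∈ (Θ (kc w hw)).1 := by
    intro w hw
    rw [hf2 w hw]
    exact (hF1 _).mapsTo (cp_self hw)
  have hinj : Injective f := by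
    intro w w' h3
    by_cases hw : w ∈ Din T ψ
    · by_cases hw' : w' ∈ Din T ψ
      · obtain ⟨m, hm⟩ := hw
        obtain ⟨n, hn⟩ := hw'
        have h4 := hfD _ w (hψ.din_up (le_max_left m n) hm)
        have h5 := hfD _ w' (hψ.din_up (le_max_right m n) hn)
        rw [h3] at h4
        exact (ψ (max m n)).injective (h4.symm.trans h5)
      · exact absurd (h3 ▸ hfin w hw) (hkc' _ _ (hfout w' hw')).1
    · by_cases hw' : w' ∈ Din T ψ
      · exact absurd (h3.symm ▸ hfin w' hw') (hkc' _ _ (hfout w hw)).1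
      · have h4 := hkc' _ _ (hfout w hw)
        have h5 := hkc' _ _ (hfout w' hw')
        have h6 : kc w hw = kc w' hw' := by
          apply Θ.injective
          apply Subtype.ext
          rw [← h4.2, ← h5.2, h3]
        have h7 : w' ∈ (kc w hw).1 := by
          rw [h6]
          exact cp_self hw'
        have h8 : w ∈ (kc w hw).1 := cp_self hw
        refine (hF1 (kc w hw)).injOn h8 h7 ?_
        rw [← hf3 _ _ h8, ← hf3 _ _ h7, h3]
  have hsurj : Surjective f := by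
    intro y
    by_cases hy : y ∈ Din T ψ'
    · obtain ⟨n, hn⟩ := hy
      refine ⟨(ψ n).symm (ψ' n y), ?_⟩
      have h3 : ψ n ((ψ n).symm (ψ' n y)) = ψ' n y := (ψ n).apply_symm_apply _
      have h4 := hfD n ((ψ n).symm (ψ' n y)) (by rw [h3]; exact hn)
      rw [h3] at h4
      exact (ψ' n).injective h4
    · let K' : KC T ψ' := ⟨Cp T ψ' y, y, hy, rfl⟩
      have h3 : y ∈ (Θ (Θ.symm K')).1 := by
        rw [Θ.apply_symm_apply]
        exact cp_self hy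
      obtain ⟨x, hx, h4⟩ := (hF1 (Θ.symm K')).surjOn h3
      exact ⟨x, by rw [hf3 _ _ hx, h4]⟩
  refine hG T ℕ ℕ ψ ψ' hψ hψ' (Equiv.ofBijective f ⟨hinj, hsurj⟩) hfD ?_
  intro n w hw
  obtain ⟨s, hs, h3⟩ := hF2 (kc w hw) n w (cp_self hw)
  refine ⟨s, hs, fun v hv => ?_⟩
  rw [Equiv.ofBijective_apply, hf3 (kc w hw) v ⟨n, hv⟩]
  exact h3 v hv

end Pool.Agent.L7h97.UA
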